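import Pool.Agent.Helper92.PU.St

/-!
Project PU (MP_ad0dc2_nt), module SG2: signs and sizes of the coordinates of a generic solution.
-/

set_option autoImplicit false

noncomputable section

namespace Pool.Agent.Helper29.PU

open Pool.Agent.Helper92.PU Pool.Agent.Helper92.PW

private theorem core {β δ x y : ℝ} (hβ : 0 < β) (h8 : |δ| ≤ 1 / 8) (hb : |δ| ≤ β ^ 3 / 2)
    (hx : β ≤ |x|) (hxy : |x| ≤ |y|) (hy : |y| ≤ 1) (he : x ^ 3 + y ^ 3 + 1 = δ) :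
    -1 ≤ x ∧ x ≤ -β ∧ -1 ≤ y ∧ y ≤ -(3 / 4) := by
  have hδ := abs_le.1 h8
  have hδ' := abs_le.1 hb
  have hy0 : y < 0 := by
    by_contra hcon
    push Not at hcon
    rw [abs_of_nonneg hcon] at hxy
    have h1 := (abs_le.1 hxy).1
    have h2 : (-y) ^ 3 ≤ x ^ 3 := (Odd.pow_le_pow (n := 3) (by decide)).2 h1
    have h3 : (-y) ^ 3 = -(y ^ 3) := by ring
    linarith [hδ.2]
  have hy1 : -1 ≤ y := (abs_le.1 hy).1
  have hy3 : -1 ≤ y ^ 3 := by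
    have h2 : (-1 : ℝ) ^ 3 ≤ y ^ 3 := (Odd.pow_le_pow (n := 3) (by decide)).2 hy1
    linarith [h2, (by norm_num : (-1 : ℝ) ^ 3 = -1)]
  have hβ3 : 0 < β ^ 3 := by positivity
  have hx0 : x < 0 := by
    by_contra hcon
    push Not at hcon
    rw [abs_of_nonneg hcon] at hx
    have h1 : β ^ 3 ≤ x ^ 3 := pow_le_pow_left₀ hβ.le hx 3
    linarith [hδ'.2]
  rw [abs_of_neg hx0] at hx hxy
  rw [abs_of_neg hy0] at hxy hy
  refine ⟨by linarith, by linarith, hy1, ?_⟩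
  by_contra hcon
  push Not at hcon
  have h1 : y ^ 3 ≤ x ^ 3 := (Odd.pow_le_pow (n := 3) (by decide)).2 (by linarith)
  have h2 : (-(3 / 4) : ℝ) ^ 3 ≤ y ^ 3 := (Odd.pow_le_pow (n := 3) (by decide)).2 hcon.le
  have h3 : (-(3 / 4) : ℝ) ^ 3 = -(27 / 64) := by norm_num
  rw [h3] at h2
  linarith [hδ.2]

theorem hSG2 : StSG2 := by
  intro k B β lam hP p hG
  have hB0 : 0 < B := by linarith [hP.B1]
  have hz0 : 0 < |(p.2.2 : ℝ)| := by linarith [hG.z_gt]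
  have hz : (p.2.2 : ℝ) ≠ 0 := abs_pos.1 hz0
  have hB3 : 0 < B ^ 3 := by positivity
  have hk : 0 ≤ |(k : ℝ)| := abs_nonneg _
  -- the equation
  have heq : xi p ^ 3 + et p ^ 3 + 1 = (k : ℝ) / (p.2.2 : ℝ) ^ 3 := by
    have h1 : ((p.1 : ℝ)) ^ 3 + (p.2.1 : ℝ) ^ 3 + (p.2.2 : ℝ) ^ 3 = (k : ℝ) := by
      have h := hG.sol
      unfold Fm at h
      exact_mod_cast h
    rw [← h1]
    unfold xi et
    field_simp
  have hsm : |(k : ℝ) / (p.2.2 : ℝ) ^ 3| ≤ 8 * |(k : ℝ)| / B ^ 3 := by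
    rw [abs_div, abs_pow]
    have h1 : (B / 2) ^ 3 ≤ |(p.2.2 : ℝ)| ^ 3 := pow_le_pow_left₀ (by linarith) hG.z_gt.le 3
    have h2 : 8 * |(k : ℝ)| / B ^ 3 = |(k : ℝ)| / (B / 2) ^ 3 := by
      field_simp
      ring
    rw [h2]
    exact div_le_div_of_nonneg_left hk (by positivity) h1
  have h8 : 8 * |(k : ℝ)| / B ^ 3 ≤ 1 / 8 := by
    rw [div_le_iff₀ hB3]
    linarith [hP.kB]
  have hb : 8 * |(k : ℝ)| / B ^ 3 ≤ β ^ 3 / 2 := by
    rw [div_le_iff₀ hB3]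
    have := hP.kb
    rw [mul_pow] at this
    linarith
  refine ⟨?_, heq, hsm⟩
  refine core hP.b0 (hsm.trans h8) (hsm.trans hb) ?_ ?_ ?_ heq
  · unfold xi
    rw [abs_div, le_div_iff₀ hz0]
    exact (mul_le_mul_of_nonneg_left hG.z_le hP.b0.le).trans hG.x_ge
  · unfold xi et
    rw [abs_div, abs_div]
    exact div_le_div_of_nonneg_right hG.xy hz0.le
  · unfold et
    rw [abs_div, div_le_one hz0]
    exact hG.yz

end Pool.Agent.Helper29.PU
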